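import Pool.Agent.Lib.MP_c5e1db_ag.Main

/-!
Ascending chain condition below one for minimal log discrepancies of Newton nondegenerate
hypersurface germs in affine toric varieties.
-/

namespace Pool.Agent.Results.MP_c5e1db_ag.NondegACC

open Pool.Agent.Lib.MP_c5e1db_ag

theorem result (n : ℕ) (hn : 0 < n) (μ : ℕ → ℝ)
    (h : ∀ k, ∃ G : Germ n, IsGLB G.logDiscs (μ k) ∧ 0 ≤ μ k ∧ μ k < 1) : ¬ StrictMono μ :=
  acc n hn μ h

end Pool.Agent.Results.MP_c5e1db_ag.NondegACC
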